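import Pool.Agent.Helper58.SF.StG

/-!
# SF, module FNP: good boxes are 3-manifolds (helper17)
-/

set_option autoImplicit false

namespace Pool.Agent.Helper17.SF

open Set Topology Pool.Agent.Helper13.TR Pool.Agent.Helper58.SF
open Pool.Agent.Helper13.TW (IsArc Spl IsSCC dch Chn Splt GT CSy MP Val LR MCell StARB StARX StSCL StUAR StINF StLIN StAC1 StSDM StLRC StBF StMD1 StMD2 StMD3)

theorem hFNP : StCRV → StFAB → StFAD → StSEC → StCHT → StFLW → StFNP := by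
  intro hCRV hFAB hFAD hSEC hCHT hFLW P _ r R dg gb x₀
  have hfl : Flow P r R := gb.box.toFlow
  have hp0 : 0 < r x₀ := hfl.pos x₀
  have hp1 : r x₀ < 1 := hfl.lt x₀
  obtain ⟨a, ha0, haa⟩ : ∃ a : ℝ, 0 < a ∧ a < r x₀ / 2 := ⟨r x₀ / 3, by linarith, by linarith⟩
  obtain ⟨a', ha', hax⟩ : ∃ a' : ℝ, a < a' ∧ a' < r x₀ := ⟨r x₀ / 2, haa, by linarith⟩
  obtain ⟨b, hxb, hb⟩ : ∃ b : ℝ, r x₀ < b ∧ b < 1 := exists_between hp1
  obtain ⟨V0, V', C2, Jp, zJ, chi, O1, hD⟩ := hCRV P r R dg gb x₀ a a' b ha0 ha' hax hxb hb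
  obtain ⟨-, -, -, ⟨K₀, hK, -, hKs⟩, h5, h6⟩ :=
    hFAB P r R dg x₀ a a' b V0 V' C2 Jp zJ chi O1 hD
  obtain ⟨j, hj, hth, hh⟩ := hFAD P r R dg x₀ a a' b V0 V' C2 Jp zJ chi O1 hD
  obtain ⟨Θ, hΘc, hΘ⟩ := hSEC P K₀ (fun u => Dk r R dg chi a a' b zJ Jp u) j hK hKs hth (by
    intro u₀ hu₀ ε hε
    obtain ⟨δ, hδ, H⟩ := hh u₀ hu₀ ε hε
    refine ⟨δ, hδ, fun u hu hd => ?_⟩
    obtain ⟨h, c1, c2, c3, c4, c5⟩ := H u hu hd
    exact ⟨h, c1, c2, c3, fun z hz => c4 _ (hj ▸ mem_image_of_mem j hz), c5⟩)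
  have hba : 0 < b - a' := by linarith
  have hRc : Continuous (R a) := (hFLW P r R hfl).1 a ha0
  set G : Set P := {y | a' < r y ∧ r y < b ∧ R a y ∈ O1} with hG
  have hGo : IsOpen G := by
    have e : G = {y | a' < r y} ∩ ({y | r y < b} ∩ R a ⁻¹' O1) := by
      ext y; rfl
    rw [e]
    exact (isOpen_lt continuous_const hfl.rc).inter
      ((isOpen_lt hfl.rc continuous_const).inter (hD.oO1.preimage hRc))
  have hxG : x₀ ∈ G := ⟨hax, hxb, hD.xO1⟩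
  obtain ⟨f, hf⟩ := hCHT P G (fun u => Dk r R dg chi a a' b zJ Jp u) j Θ
    (fun y => (b - r y) / (b - a')) hGo
    ((continuous_const.sub hfl.rc).div_const _).continuousOn hΘc hΘ (by
      intro y hy
      obtain ⟨y1, y2, y3⟩ := hy
      have k := h5 y y1 y2 y3
      refine ⟨⟨div_pos (by linarith) hba, (div_lt_one hba).2 (by linarith)⟩, k.1, ?_⟩
      rw [hj]
      exact k.2) (by
      rintro u hu y ⟨hy, -, -, y3⟩
      have k := h6 u ⟨hu.1.le, hu.2.le⟩ y hy y3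
      show (b - r y) / (b - a') = u
      rw [k, div_eq_iff hba.ne']
      ring)
  exact ⟨G, hGo, hxG, f, hf⟩

end Pool.Agent.Helper17.SF
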